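import Pool.Agent.H7.LP.Targets

/-!
# Labels: the basic properties
-/

set_option autoImplicit false

open Set Filter Topology

namespace Pool.Agent.H80.LP

open Pool.Agent.H7.LP

section Aux

variable {G : Type} [Group G] [TopologicalSpace G] [IsTopologicalGroup G]

/-- A preimage of a closure under a right translation is the closure of the preimage. -/
private theorem clr (s : Set G) (h : G) :
    {a : G | a * h ∈ closure s} = closure {a : G | a * h ∈ s} :=
  (Homeomorph.mulRight h).preimage_closure s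

private theorem lab_tr (R : Subgroup G) (g : G) (c : ℕ → Set G) (n : ℕ) :
    lab R (tr g c) n = closure {a | ∃ r ∈ R, a * r * g ∈ c n} := rfl

private theorem tr_lab (R : Subgroup G) (g : G) (c : ℕ → Set G) (n : ℕ) :
    tr g (lab R c) n = closure {a | ∃ r ∈ R, a * g * r ∈ c n} := by
  have h1 : tr g (lab R c) n = {a : G | a * g ∈ closure {a | ∃ r ∈ R, a * r ∈ c n}} := rfl
  rw [h1, clr]
  rfl

private theorem lab_tr_comm (R : Subgroup G) (c : ℕ → Set G) (h : G)
    (h1 : ∀ r ∈ R, h * r * h⁻¹ ∈ R) (h2 : ∀ r ∈ R, h⁻¹ * r * h ∈ R) :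
    lab R (tr h c) = tr h (lab R c) := by
  funext n
  rw [lab_tr, tr_lab]
  congr 1
  ext a
  constructor
  · rintro ⟨r, hr, ha⟩
    refine ⟨h⁻¹ * r * h, h2 r hr, ?_⟩
    have e : a * h * (h⁻¹ * r * h) = a * r * h := by group
    rw [e]
    exact ha
  · rintro ⟨r, hr, ha⟩
    refine ⟨h * r * h⁻¹, h1 r hr, ?_⟩
    have e : a * (h * r * h⁻¹) * h = a * h * r := by group
    rw [e]
    exact ha

private theorem tr_lab_self (R : Subgroup G) (c : ℕ → Set G) (r : G) (hr : r ∈ R) :
    tr r (lab R c) = lab R c := by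
  funext n
  have h0 : lab R c n = closure {a | ∃ r ∈ R, a * r ∈ c n} := rfl
  rw [tr_lab, h0]
  congr 1
  ext a
  constructor
  · rintro ⟨s, hs, ha⟩
    refine ⟨r * s, R.mul_mem hr hs, ?_⟩
    rw [← mul_assoc]
    exact ha
  · rintro ⟨s, hs, ha⟩
    refine ⟨r⁻¹ * s, R.mul_mem (R.inv_mem hr) hs, ?_⟩
    have e : a * r * (r⁻¹ * s) = a * s := by group
    rw [e]
    exact ha

/-- The label of a translate depends only on the label for a smaller group. -/
private theorem lab_lab (R' R : Subgroup G) (g : G) (c : ℕ → Set G)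
    (hg : ∀ r ∈ R', g * r * g⁻¹ ∈ R) :
    lab R (tr g c) = lab R (tr g (lab R' c)) := by
  funext n
  rw [lab_tr, lab_tr]
  apply Subset.antisymm
  · apply closure_mono
    rintro a ⟨r, hr, ha⟩
    refine ⟨r, hr, ?_⟩
    apply subset_closure
    refine ⟨1, R'.one_mem, ?_⟩
    rw [mul_one]
    exact ha
  · apply closure_minimal _ isClosed_closure
    rintro a ⟨r, hr, ha⟩
    have h1 : a ∈ {a : G | a * (r * g) ∈ closure {b | ∃ r' ∈ R', b * r' ∈ c n}} := by
      have e : a * (r * g) = a * r * g := by group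
      show a * (r * g) ∈ closure {b | ∃ r' ∈ R', b * r' ∈ c n}
      rw [e]
      exact ha
    rw [clr] at h1
    refine closure_mono ?_ h1
    rintro b ⟨r', hr', hb⟩
    refine ⟨r * (g * r' * g⁻¹), R.mul_mem hr (hg r' hr'), ?_⟩
    have e : b * (r * (g * r' * g⁻¹)) * g = b * (r * g) * r' := by group
    rw [e]
    exact hb

private theorem closed_Stb (H : Subgroup G) (y : ℕ → Set G) (hH : IsClosed (H : Set G))
    (hy : ∀ n, IsClosed (y n)) : IsClosed (Stb H y : Set G) := by
  have h1 : (Stb H y : Set G) = (H : Set G) ∩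
      ⋂ n, ⋂ a ∈ y n, ({h : G | a * h ∈ y n} ∩ {h : G | a * h⁻¹ ∈ y n}) := by
    ext h
    simp only [SetLike.mem_coe, mem_Stb, mem_inter_iff, mem_iInter, mem_setOf_eq]
    constructor
    · rintro ⟨h1, h2⟩
      refine ⟨h1, fun n a ha => ⟨?_, ?_⟩⟩
      · have h3 : a ∈ tr h y n := by
          rw [h2]
          exact ha
        exact h3
      · have h3 : a * h⁻¹ ∈ tr h y n := by
          show a * h⁻¹ * h ∈ y n
          rw [inv_mul_cancel_right]
          exact ha
        rw [h2] at h3
        exact h3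
    · rintro ⟨h1, h2⟩
      refine ⟨h1, ?_⟩
      funext n
      ext a
      constructor
      · intro ha
        have h3 : a * h ∈ y n := ha
        have h4 := (h2 n _ h3).2
        rwa [mul_inv_cancel_right] at h4
      · intro ha
        exact (h2 n a ha).1
  rw [h1]
  refine hH.inter (isClosed_iInter fun n => isClosed_iInter fun a => isClosed_iInter fun _ => ?_)
  refine IsClosed.inter ?_ ?_
  · exact (hy n).preimage (continuous_const.mul continuous_id)
  · exact (hy n).preimage (continuous_const.mul continuous_inv)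

end Aux

theorem pf_LAB : T_LAB := by
  intro G _ _ _
  refine ⟨fun R c n => isClosed_closure, ?_, tr_lab_self, ?_, closed_Stb, ?_, ?_⟩
  · intro R H c hp h hh
    refine lab_tr_comm R c h (hp.nor h hh) ?_
    intro r hr
    have h1 := hp.nor h⁻¹ (H.inv_mem hh) r hr
    rwa [inv_inv] at h1
  · intro R' R g c c' hg he
    rw [lab_lab R' R g c hg, lab_lab R' R g c' hg, he]
  · intro R H c hp r hr
    exact ⟨hp.le hr, tr_lab_self R c r hr⟩
  · intro R c
    have h1 := lab_lab R R 1 c (fun r hr => by simpa using hr)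
    rw [tr_one, tr_one] at h1
    exact h1.symm

end Pool.Agent.H80.LP
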